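import Mathlib

/-!
# The Kerdock family of quadratic forms and its sign vectors

`K` is a finite field of characteristic 2 of odd degree over `ZMod 2`.  On `V = K × ZMod 2` we use
the quadratic functions `Q a (x,s) = q (a x) + s Tr(a x)`, where `q (x+y) = q x + q y + Tr(xy) + Tr x Tr y`.
-/

namespace Pool.Agent.Lib.MP_c5838f_co.H61

open Finset

/-- the sign `(-1)^z` of `z ∈ ZMod 2`. -/
noncomputable def sg (z : ZMod 2) : ℝ := if z = 0 then 1 else -1

lemma zmod2_cases (z : ZMod 2) : z = 0 ∨ z = 1 := by
  revert z; decide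

lemma zmod2_add_self (z : ZMod 2) : z + z = 0 := by
  revert z; decide

lemma zmod2_ne_zero {z : ZMod 2} (h : z ≠ 0) : z = 1 := by
  rcases zmod2_cases z with h' | h'
  · exact absurd h' h
  · exact h'

lemma sg_zero : sg 0 = 1 := by simp [sg]

lemma sg_one : sg 1 = -1 := by simp [sg]

lemma sg_add (x y : ZMod 2) : sg (x + y) = sg x * sg y := by
  have h11 : (1 : ZMod 2) + 1 = 0 := by decide
  rcases zmod2_cases x with h | h <;> rcases zmod2_cases y with h' | h' <;> subst h <;> subst h' <;>
    simp [sg, h11]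

lemma sg_mul_self (x : ZMod 2) : sg x * sg x = 1 := by
  rcases zmod2_cases x with h | h <;> subst h <;> simp [sg]

lemma sg_sq (x : ZMod 2) : sg x ^ 2 = 1 := by
  rw [pow_two]; exact sg_mul_self x

/-! ### Character sums -/

/-- A nonzero additive function has zero sign sum. -/
lemma sum_sg_linear {V : Type*} [AddCommGroup V] [Fintype V] (L : V → ZMod 2)
    (hL : ∀ x y, L (x + y) = L x + L y) (x0 : V) (h0 : L x0 = 1) :
    ∑ x, sg (L x) = 0 := by
  have h : ∑ x, sg (L x) = ∑ x, sg (L (x + x0)) :=
    (Equiv.sum_comp (Equiv.addRight x0) (fun x => sg (L x))).symm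
  have h2 : ∑ x, sg (L (x + x0)) = - ∑ x, sg (L x) := by
    rw [← Finset.sum_neg_distrib]
    refine Finset.sum_congr rfl fun x _ => ?_
    rw [hL, h0, sg_add, sg_one]; ring
  linarith

/-- The Gauss sum of a nondegenerate quadratic function. -/
lemma gauss_sum_sq {V : Type*} [AddCommGroup V] [Fintype V] (g : V → ZMod 2)
    (B : V → V → ZMod 2) (hg : ∀ x z, g (x + z) = g x + g z + B x z)
    (hB : ∀ x y z, B (x + y) z = B x z + B y z) (hnd : ∀ z, z ≠ 0 → ∃ x, B x z = 1) :
    (∑ x, sg (g x)) ^ 2 = Fintype.card V := by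
  classical
  have hB0 : ∀ z, B 0 z = 0 := by
    intro z
    have := hB 0 0 z
    simpa using this
  have hg0 : g 0 = 0 := by
    have h := hg 0 0
    rw [hB0, add_zero, add_zero, zmod2_add_self] at h
    exact h
  have hBz : ∀ x, B x 0 = 0 := by
    intro x
    have h := hg x 0
    rw [add_zero, hg0, add_zero] at h
    have h3 : g x + 0 = g x + B x 0 := by rw [add_zero]; exact h
    exact (add_left_cancel h3).symm
  have h1 : (∑ x, sg (g x)) ^ 2 = ∑ x, ∑ z, sg (g x) * sg (g (x + z)) := by
    rw [pow_two, Finset.sum_mul]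
    refine Finset.sum_congr rfl fun x _ => ?_
    rw [← Finset.mul_sum]
    congr 1
    exact (Equiv.sum_comp (Equiv.addLeft x) (fun z => sg (g z))).symm
  have h2 : ∀ x z, sg (g x) * sg (g (x + z)) = sg (g z) * sg (B x z) := by
    intro x z
    rw [hg, sg_add, sg_add]
    have := sg_mul_self (g x)
    calc sg (g x) * (sg (g x) * sg (g z) * sg (B x z))
        = (sg (g x) * sg (g x)) * (sg (g z) * sg (B x z)) := by ring
      _ = _ := by rw [this, one_mul]
  rw [h1]
  simp_rw [h2]
  rw [Finset.sum_comm]
  simp_rw [← Finset.mul_sum]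
  rw [Finset.sum_eq_single (0 : V)]
  · simp [hg0, hBz, sg_zero]
  · intro z _ hz
    obtain ⟨x0, hx0⟩ := hnd z hz
    rw [sum_sg_linear (fun x => B x z) (fun x y => hB x y z) x0 hx0, mul_zero]
  · intro h; exact absurd (Finset.mem_univ _) h

/-! ### A quadratic refinement of an alternating form -/

/-- Every alternating bilinear form over `ZMod 2` is the polarisation of a function. -/
lemma exists_quad {V : Type*} [AddCommGroup V] [Module (ZMod 2) V] [Module.Finite (ZMod 2) V]
    (B : V →ₗ[ZMod 2] V →ₗ[ZMod 2] ZMod 2) (hsymm : ∀ x y, B x y = B y x)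
    (halt : ∀ x, B x x = 0) :
    ∃ q : V → ZMod 2, ∀ x y, q (x + y) = q x + q y + B x y := by
  classical
  let b := Module.finBasis (ZMod 2) V
  let A : V → V → ZMod 2 := fun x y =>
    ∑ i, ∑ j, if i < j then b.repr x i * b.repr y j * B (b i) (b j) else 0
  have hAl : ∀ x y z, A (x + y) z = A x z + A y z := by
    intro x y z
    simp only [A, ← Finset.sum_add_distrib]
    refine Finset.sum_congr rfl fun i _ => Finset.sum_congr rfl fun j _ => ?_
    split_ifs
    · simp only [map_add, Finsupp.add_apply]; ring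
    · simp
  have hAr : ∀ x y z, A z (x + y) = A z x + A z y := by
    intro x y z
    simp only [A, ← Finset.sum_add_distrib]
    refine Finset.sum_congr rfl fun i _ => Finset.sum_congr rfl fun j _ => ?_
    split_ifs
    · simp only [map_add, Finsupp.add_apply]; ring
    · simp
  have hBexp : ∀ x y, B x y = ∑ i, ∑ j, b.repr x i * b.repr y j * B (b i) (b j) := by
    intro x y
    conv_lhs => rw [← b.sum_repr x, ← b.sum_repr y]
    simp only [map_sum, map_smul, LinearMap.sum_apply, LinearMap.smul_apply, smul_eq_mul,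
      Finset.mul_sum]
    rw [Finset.sum_comm]
    refine Finset.sum_congr rfl fun i _ => Finset.sum_congr rfl fun j _ => ?_
    ring
  have hAA : ∀ x y, A x y + A y x = B x y := by
    intro x y
    have h1 : A y x = ∑ i, ∑ j, if j < i then b.repr x i * b.repr y j * B (b i) (b j) else 0 := by
      simp only [A]
      rw [Finset.sum_comm]
      refine Finset.sum_congr rfl fun i _ => Finset.sum_congr rfl fun j _ => ?_
      split_ifs
      · rw [hsymm (b i) (b j)]; ring
      · rfl
    rw [h1, hBexp]
    simp only [A, ← Finset.sum_add_distrib]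
    refine Finset.sum_congr rfl fun i _ => Finset.sum_congr rfl fun j _ => ?_
    rcases lt_trichotomy i j with h | h | h
    · simp [h, h.le, not_lt.mpr h.le]
    · subst h; simp [halt]
    · simp [h, not_lt.mpr h.le]
  refine ⟨fun x => A x x, fun x y => ?_⟩
  simp only [hAl, hAr]
  rw [← hAA x y]
  ring

/-! ### The field and its trace -/

section Field

variable {K : Type*} [Field K] [Finite K] [Algebra (ZMod 2) K]

/-- The absolute trace. -/
noncomputable abbrev tr (x : K) : ZMod 2 := Algebra.trace (ZMod 2) K x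

lemma add_self_K (x : K) : x + x = 0 := by
  have h : (algebraMap (ZMod 2) K) (1 + 1) = 0 := by
    have : (1 : ZMod 2) + 1 = 0 := by decide
    rw [this, map_zero]
  have h2 : (1 : K) + 1 = 0 := by simpa using h
  calc x + x = (1 + 1) * x := by ring
    _ = 0 := by rw [h2, zero_mul]

lemma two_eq_zero_K : (2 : K) = 0 := by
  have := add_self_K (1 : K)
  rw [← this]; norm_num

lemma eq_of_add_eq_zero_K {x y : K} (h : x + y = 0) : x = y := by
  have h2 := add_self_K y
  have : x + y = y + y := by rw [h, h2]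
  exact add_right_cancel this

lemma tr_sq (x : K) : tr (x ^ 2) = tr x := by
  have := Fintype.ofFinite K
  have h := Algebra.trace_eq_of_algEquiv
    (FiniteField.frobeniusAlgEquivOfAlgebraic (ZMod 2) K) x
  have h2 : (FiniteField.frobeniusAlgEquivOfAlgebraic (ZMod 2) K) x = x ^ 2 := by
    rw [FiniteField.coe_frobeniusAlgEquivOfAlgebraic]
    simp [ZMod.card]
  rw [h2] at h
  exact h

lemma tr_nondeg (z : K) (h : ∀ y, tr (z * y) = 0) : z = 0 := by
  have := traceForm_nondegenerate (ZMod 2) K
  have h2 := (LinearMap.BilinForm.Nondegenerate.ker_eq_bot this)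
  have h3 : Algebra.traceForm (ZMod 2) K z = 0 := by
    ext y
    simpa [Algebra.traceForm_apply] using h y
  have h4 : z ∈ LinearMap.ker (Algebra.traceForm (ZMod 2) K) := h3
  rw [h2] at h4
  simpa using h4

lemma exists_tr_eq_one (z : K) (hz : z ≠ 0) : ∃ y, tr (z * y) = 1 := by
  by_contra hcon
  push Not at hcon
  apply hz
  apply tr_nondeg
  intro y
  by_contra h
  exact hcon y (zmod2_ne_zero h)

/-- scalars of `ZMod 2` inside `K`. -/
lemma tr_algebraMap (hodd : Odd (Module.finrank (ZMod 2) K)) (e : ZMod 2) :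
    tr (algebraMap (ZMod 2) K e) = e := by
  unfold tr
  rw [Algebra.trace_algebraMap]
  obtain ⟨t, ht⟩ := hodd
  rw [ht, nsmul_eq_mul]
  push_cast
  have : (2 : ZMod 2) = 0 := by decide
  rw [this]; ring

/-- The alternating form `Tr(xy) + Tr x Tr y`. -/
noncomputable def B0 (K : Type*) [Field K] [Finite K] [Algebra (ZMod 2) K] :
    K →ₗ[ZMod 2] K →ₗ[ZMod 2] ZMod 2 :=
  LinearMap.mk₂ (ZMod 2) (fun x y => tr (x * y) + tr x * tr y)
    (by intro x x' y; simp only [add_mul, map_add]; ring)
    (by intro c x y; simp only [smul_mul_assoc, map_smul, smul_eq_mul]; ring)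
    (by intro x y y'; simp only [mul_add, map_add]; ring)
    (by intro c x y; simp only [mul_smul_comm, map_smul, smul_eq_mul]; ring)

lemma B0_apply (x y : K) : B0 K x y = tr (x * y) + tr x * tr y := rfl

lemma exists_q (K : Type*) [Field K] [Finite K] [Algebra (ZMod 2) K] :
    ∃ q : K → ZMod 2, ∀ x y, q (x + y) = q x + q y + (tr (x * y) + tr x * tr y) := by
  have : Module.Finite (ZMod 2) K := Module.Finite.of_finite
  refine exists_quad (B0 K) ?_ ?_
  · intro x y
    rw [B0_apply, B0_apply, mul_comm x y, mul_comm (tr x) (tr y)]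
  · intro x
    rw [B0_apply, ← pow_two, tr_sq]
    have h : ∀ z : ZMod 2, z + z * z = 0 := by decide
    exact h _

/-- The polarisation of the quadratic function `(x,s) ↦ q (a x) + s Tr(a x)`. -/
noncomputable def Bf (a : K) (v w : K × ZMod 2) : ZMod 2 :=
  tr (a * v.1 * (a * w.1)) + tr (a * v.1) * tr (a * w.1) + v.2 * tr (a * w.1) +
    w.2 * tr (a * v.1)

lemma Bf_add_left (a : K) (v v' w : K × ZMod 2) : Bf a (v + v') w = Bf a v w + Bf a v' w := by
  simp only [Bf, Prod.fst_add, Prod.snd_add, mul_add, add_mul, map_add]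
  ring

/-- The forms `Bf a` and `Bf b` have nondegenerate sum for `a ≠ b`. -/
lemma Bf_nondeg (hodd : Odd (Module.finrank (ZMod 2) K)) {a b : K} (hab : a ≠ b)
    (v : K × ZMod 2) (hv : v ≠ 0) : ∃ w, Bf a w v + Bf b w v = 1 := by
  by_contra hcon
  push Not at hcon
  have hz : ∀ w, Bf a w v + Bf b w v = 0 := by
    intro w
    by_contra h
    exact hcon w (zmod2_ne_zero h)
  obtain ⟨x, s⟩ := v
  have h1 : tr (a * x) = tr (b * x) := by
    have h := hz (0, 1)
    simp only [Bf, mul_zero, zero_mul, map_zero, zero_add, one_mul, add_zero] at h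
    have : ∀ u w : ZMod 2, u + w = 0 → u = w := by decide
    exact this _ _ h
  set ε : ZMod 2 := tr (a * x) with hε
  have h2 : (a + b) ^ 2 * x + algebraMap (ZMod 2) K (ε + s) * (a + b) = 0 := by
    apply tr_nondeg
    intro y
    have h := hz (y, 0)
    simp only [Bf, zero_mul, add_zero] at h
    rw [← h1] at h
    have e1 : ((a + b) ^ 2 * x + algebraMap (ZMod 2) K (ε + s) * (a + b)) * y
        = (a * y * (a * x) + b * y * (b * x)) + (ε + s) • (a * y) + (ε + s) • (b * y) +
          2 * (a * b * x * y) := by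
      rw [Algebra.smul_def, Algebra.smul_def]; ring
    rw [e1, two_eq_zero_K, zero_mul, add_zero]
    simp only [map_add, map_smul, smul_eq_mul]
    calc _ = (tr (a * y * (a * x)) + tr (a * y) * ε + s * tr (a * y)) +
          (tr (b * y * (b * x)) + tr (b * y) * ε + s * tr (b * y)) := by ring
      _ = 0 := h
  have hab' : a + b ≠ 0 := fun h => hab (eq_of_add_eq_zero_K h)
  have h3 : (a + b) * x = algebraMap (ZMod 2) K (ε + s) := by
    have h4 : (a + b) * ((a + b) * x + algebraMap (ZMod 2) K (ε + s)) = 0 := by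
      rw [← h2]; ring
    rcases mul_eq_zero.mp h4 with h5 | h5
    · exact absurd h5 hab'
    · exact eq_of_add_eq_zero_K h5
  have h4 : ε + s = 0 := by
    have h5 : tr ((a + b) * x) = ε + s := by rw [h3]; exact tr_algebraMap hodd _
    have h6 : tr ((a + b) * x) = tr (a * x) + tr (b * x) := by
      rw [add_mul]; exact map_add (Algebra.trace (ZMod 2) K) _ _
    rw [h6] at h5
    change ε + tr (b * x) = ε + s at h5
    rw [← h1, zmod2_add_self] at h5
    exact h5.symm
  rw [h4, map_zero] at h3
  have hx : x = 0 := by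
    rcases mul_eq_zero.mp h3 with h5 | h5
    · exact absurd h5 hab'
    · exact h5
  have hε0 : ε = 0 := by rw [hε, hx]; simp
  have hs : s = 0 := by rw [hε0, zero_add] at h4; exact h4
  exact hv (by rw [hx, hs]; rfl)

end Field

end Pool.Agent.Lib.MP_c5838f_co.H61
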