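import Mathlib
import Pool.Agent.Lib.MP_c5838f_co.H61.Kerdock

/-!
# The lifted sign vectors and their inner products
-/

namespace Pool.Agent.Lib.MP_c5838f_co.H61

open Finset

section Field

variable {K : Type*} [Field K] [Fintype K] [DecidableEq K] [Algebra (ZMod 2) K]

/-- Parameters `(a, c, d, e)` of a sign vector. -/
abbrev Par (K : Type*) := K × K × ZMod 2 × ZMod 2

/-- The exponent of the sign vector with parameters `(a, c, d, e)` at `(x, s)`. -/
noncomputable def ph (q : K → ZMod 2) (p : Par K) (v : K × ZMod 2) : ZMod 2 :=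
  q (p.1 * v.1) + v.2 * tr (p.1 * v.1) + tr (p.2.1 * v.1) + p.2.2.1 * v.2 + p.2.2.2

/-- The sign inner product. -/
noncomputable def S (q : K → ZMod 2) (p p' : Par K) : ℝ :=
  ∑ v, sg (ph q p v) * sg (ph q p' v)

omit [DecidableEq K] in
lemma S_self (q : K → ZMod 2) (p : Par K) : S q p p = 2 * Fintype.card K := by
  unfold S
  simp only [sg_mul_self, Finset.sum_const, Finset.card_univ, Fintype.card_prod, ZMod.card]
  simp; ring

omit [DecidableEq K] in
lemma S_comm (q : K → ZMod 2) (p p' : Par K) : S q p p' = S q p' p := by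
  unfold S
  exact Finset.sum_congr rfl fun v _ => mul_comm _ _

omit [DecidableEq K] in
/-- Different members of the family: the inner product has square `|V|`. -/
lemma S_sq (hodd : Odd (Module.finrank (ZMod 2) K)) (q : K → ZMod 2)
    (hq : ∀ x y, q (x + y) = q x + q y + (tr (x * y) + tr x * tr y))
    {p p' : Par K} (h : p.1 ≠ p'.1) : (S q p p') ^ 2 = 2 * Fintype.card K := by
  obtain ⟨a, c, d, e⟩ := p
  obtain ⟨a', c', d', e'⟩ := p'
  have hab : a ≠ a' := h
  let g : K × ZMod 2 → ZMod 2 := fun v =>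
    (q (a * v.1) + v.2 * tr (a * v.1)) + (q (a' * v.1) + v.2 * tr (a' * v.1)) +
      (tr ((c + c') * v.1) + (d + d') * v.2)
  have h1 : ∀ v, sg (ph q (a, c, d, e) v) * sg (ph q (a', c', d', e') v)
      = sg (e + e') * sg (g v) := by
    intro v
    rw [← sg_add, ← sg_add]
    congr 1
    simp only [ph, g, add_mul, map_add]
    ring
  have h2 : S q (a, c, d, e) (a', c', d', e') = sg (e + e') * ∑ v, sg (g v) := by
    unfold S
    rw [Finset.mul_sum]
    exact Finset.sum_congr rfl fun v _ => h1 v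
  rw [h2, mul_pow, sg_sq, one_mul]
  have h3 := gauss_sum_sq g (fun w v => Bf a w v + Bf a' w v) ?_ ?_ ?_
  · rw [h3, Fintype.card_prod, ZMod.card]; push_cast; ring
  · intro v w
    simp only [g, Bf, Prod.fst_add, Prod.snd_add, mul_add, hq, map_add]
    ring
  · intro v w z
    simp only [Bf_add_left]
    ring
  · intro z hz
    exact Bf_nondeg hodd hab z hz

omit [DecidableEq K] in
/-- Same member, different linear part: orthogonal. -/
lemma S_orth (q : K → ZMod 2) {p p' : Par K} (h : p.1 = p'.1)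
    (h' : ¬ (p.2.1 = p'.2.1 ∧ p.2.2.1 = p'.2.2.1)) : S q p p' = 0 := by
  obtain ⟨a, c, d, e⟩ := p
  obtain ⟨a', c', d', e'⟩ := p'
  change a = a' at h
  subst h
  change ¬ (c = c' ∧ d = d') at h'
  let L : K × ZMod 2 → ZMod 2 := fun v => tr ((c + c') * v.1) + (d + d') * v.2
  have h1 : ∀ v, sg (ph q (a, c, d, e) v) * sg (ph q (a, c', d', e') v)
      = sg (e + e') * sg (L v) := by
    intro v
    rw [← sg_add, ← sg_add]
    congr 1
    simp only [ph, L, add_mul, map_add]
    have e1 := zmod2_add_self (q (a * v.1))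
    have e2 := zmod2_add_self (v.2 * tr (a * v.1))
    linear_combination e1 + e2
  have h2 : S q (a, c, d, e) (a, c', d', e') = sg (e + e') * ∑ v, sg (L v) := by
    unfold S
    rw [Finset.mul_sum]
    exact Finset.sum_congr rfl fun v _ => h1 v
  rw [h2]
  have hL : ∀ v w, L (v + w) = L v + L w := by
    intro v w
    simp only [L, Prod.fst_add, Prod.snd_add, mul_add, map_add]
    ring
  have hex : ∃ v0, L v0 = 1 := by
    by_cases hc : c = c'
    · have hd : d ≠ d' := fun hd => h' ⟨hc, hd⟩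
      refine ⟨(0, 1), ?_⟩
      have : ∀ u w : ZMod 2, u ≠ w → u + w = 1 := by decide
      simp [L, this _ _ hd]
    · have hcc : c + c' ≠ 0 := fun h => hc (eq_of_add_eq_zero_K h)
      obtain ⟨y, hy⟩ := exists_tr_eq_one (c + c') hcc
      refine ⟨(y, 0), ?_⟩
      simp only [L, mul_zero, add_zero]
      exact hy
  obtain ⟨v0, hv0⟩ := hex
  rw [sum_sg_linear L hL v0 hv0, mul_zero]

omit [DecidableEq K] in
/-- Antipodal vectors. -/
lemma S_anti (q : K → ZMod 2) {p p' : Par K} (hne : p ≠ p') (h : p.1 = p'.1)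
    (h' : p.2.1 = p'.2.1 ∧ p.2.2.1 = p'.2.2.1) : S q p p' = - (2 * Fintype.card K) := by
  obtain ⟨a, c, d, e⟩ := p
  obtain ⟨a', c', d', e'⟩ := p'
  change a = a' at h
  obtain ⟨h1, h2⟩ := h'
  change c = c' at h1
  change d = d' at h2
  subst h; subst h1; subst h2
  have hee : e ≠ e' := fun h => hne (by rw [h])
  have h3 : e + e' = 1 := by
    have : ∀ u w : ZMod 2, u ≠ w → u + w = 1 := by decide
    exact this _ _ hee
  have h4 : ∀ v, sg (ph q (a, c, d, e) v) * sg (ph q (a, c, d, e') v) = -1 := by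
    intro v
    rw [← sg_add]
    have : ph q (a, c, d, e) v + ph q (a, c, d, e') v = 1 := by
      simp only [ph]
      rw [← h3]
      have e1 := zmod2_add_self (q (a * v.1))
      have e2 := zmod2_add_self (v.2 * tr (a * v.1))
      have e3 := zmod2_add_self (tr (c * v.1))
      have e4 := zmod2_add_self (d * v.2)
      linear_combination e1 + e2 + e3 + e4
    rw [this, sg_one]
  unfold S
  simp only [h4, Finset.sum_const, Finset.card_univ, Fintype.card_prod, ZMod.card]
  simp; ring

/-- The lifted vector (before scaling): the sign vector, and one extra coordinate `β` for its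
member `a` of the family. -/
noncomputable def f (q : K → ZMod 2) (β : ℝ) (p : Par K) : (K × ZMod 2) ⊕ K → ℝ :=
  Sum.elim (fun v => sg (ph q p v)) (fun b => if b = p.1 then β else 0)

/-- Inner product of two lifted vectors. -/
noncomputable def ip (q : K → ZMod 2) (β : ℝ) (p p' : Par K) : ℝ :=
  ∑ i, f q β p i * f q β p' i

lemma ip_eq (q : K → ZMod 2) (β : ℝ) (p p' : Par K) :
    ip q β p p' = S q p p' + if p.1 = p'.1 then β ^ 2 else 0 := by
  unfold ip S
  rw [Fintype.sum_sum_type]
  congr 1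
  simp only [f, Sum.elim_inr]
  by_cases h : p.1 = p'.1
  · simp only [h, if_true]
    rw [Finset.sum_eq_single p'.1]
    · simp [pow_two]
    · intro b _ hb; simp [hb]
    · intro hb; exact absurd (Finset.mem_univ _) hb
  · rw [if_neg h]
    apply Finset.sum_eq_zero
    intro b _
    by_cases hb : b = p.1
    · have : b ≠ p'.1 := fun hb' => h (hb ▸ hb')
      simp [this]
    · simp [hb]

/-- The three possible inner products. -/
lemma ip_cases (hodd : Odd (Module.finrank (ZMod 2) K)) (q : K → ZMod 2)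
    (hq : ∀ x y, q (x + y) = q x + q y + (tr (x * y) + tr x * tr y))
    (β M : ℝ) (hβ : β ^ 2 = M) (hM : 2 ≤ M) (hK : 2 * (Fintype.card K : ℝ) = M ^ 2)
    {p p' : Par K} (hne : p ≠ p') : ip q β p p' = M ∨ ip q β p p' ≤ -M := by
  rw [ip_eq]
  by_cases h : p.1 = p'.1
  · rw [if_pos h, hβ]
    by_cases h' : p.2.1 = p'.2.1 ∧ p.2.2.1 = p'.2.2.1
    · right
      rw [S_anti q hne h h', hK]
      nlinarith
    · left
      rw [S_orth q h h', zero_add]
  · rw [if_neg h, add_zero]
    have h2 := S_sq hodd q hq h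
    rw [hK] at h2
    have h3 : (S q p p' - M) * (S q p p' + M) = 0 := by ring_nf; rw [h2]; ring
    rcases mul_eq_zero.mp h3 with h4 | h4
    · left; linarith
    · right; linarith

lemma ip_self (q : K → ZMod 2) (β M : ℝ) (hβ : β ^ 2 = M)
    (hK : 2 * (Fintype.card K : ℝ) = M ^ 2) (p : Par K) : ip q β p p = M ^ 2 + M := by
  rw [ip_eq, if_pos rfl, S_self, hK, hβ]

lemma ip_comm (q : K → ZMod 2) (β : ℝ) (p p' : Par K) : ip q β p p' = ip q β p' p := by
  unfold ip
  exact Finset.sum_congr rfl fun v _ => mul_comm _ _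

/-- The squared distance in terms of inner products. -/
lemma dsq (q : K → ZMod 2) (β : ℝ) (p p' : Par K) :
    ∑ i, (f q β p i - f q β p' i) ^ 2 = ip q β p p + ip q β p' p' - 2 * ip q β p p' := by
  unfold ip
  rw [Finset.mul_sum, ← Finset.sum_add_distrib, ← Finset.sum_sub_distrib]
  exact Finset.sum_congr rfl fun v _ => by ring

/-- A set of parameters without touching pairs has at most `M + 2` members. -/
lemma indep_card (q : K → ZMod 2) (β M : ℝ) (hβ : β ^ 2 = M) (hM : 2 ≤ M)
    (hK : 2 * (Fintype.card K : ℝ) = M ^ 2) (I : Finset (Par K))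
    (hI : ∀ p ∈ I, ∀ p' ∈ I, p ≠ p' → ip q β p p' ≤ -M) : (I.card : ℝ) ≤ M + 2 := by
  rcases I.eq_empty_or_nonempty with h0 | hne
  · rw [h0]; simp; linarith
  have h1 : 0 ≤ ∑ i, (∑ p ∈ I, f q β p i) ^ 2 := Finset.sum_nonneg fun i _ => sq_nonneg _
  have h2 : ∑ i, (∑ p ∈ I, f q β p i) ^ 2 = ∑ p ∈ I, ∑ p' ∈ I, ip q β p p' := by
    simp only [pow_two, Finset.sum_mul_sum]
    rw [Finset.sum_comm]
    refine Finset.sum_congr rfl fun p _ => ?_
    rw [Finset.sum_comm]
    rfl
  have h3 : ∀ p ∈ I, ∑ p' ∈ I, ip q β p p' ≤ (M ^ 2 + M) + (I.card - 1) * (-M) := by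
    intro p hp
    rw [← Finset.add_sum_erase I _ hp, ip_self q β M hβ hK]
    have h4 : ∑ p' ∈ I.erase p, ip q β p p' ≤ ∑ p' ∈ I.erase p, (-M) := by
      apply Finset.sum_le_sum
      intro p' hp'
      exact hI p hp p' (Finset.mem_of_mem_erase hp') (Finset.ne_of_mem_erase hp').symm
    rw [Finset.sum_const, Finset.card_erase_of_mem hp, nsmul_eq_mul] at h4
    have h5 : ((I.card - 1 : ℕ) : ℝ) = (I.card : ℝ) - 1 := by
      have : 1 ≤ I.card := Finset.card_pos.mpr ⟨p, hp⟩
      push_cast [Nat.cast_sub this]; ring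
    rw [h5] at h4
    linarith
  have h6 : ∑ p ∈ I, ∑ p' ∈ I, ip q β p p' ≤
      (I.card : ℝ) * ((M ^ 2 + M) + (I.card - 1) * (-M)) := by
    calc _ ≤ ∑ p ∈ I, ((M ^ 2 + M) + ((I.card : ℝ) - 1) * (-M)) := Finset.sum_le_sum h3
      _ = _ := by rw [Finset.sum_const, nsmul_eq_mul]
  have h7 : 0 ≤ (I.card : ℝ) * ((M ^ 2 + M) + (I.card - 1) * (-M)) := by
    rw [h2] at h1; linarith
  have hpos : (0 : ℝ) < I.card := by
    exact_mod_cast Finset.card_pos.mpr hne
  have h8 : 0 ≤ (M ^ 2 + M) + ((I.card : ℝ) - 1) * (-M) := by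
    by_contra hcon
    push Not at hcon
    have := mul_neg_of_pos_of_neg hpos hcon
    linarith
  have h9 : M * ((I.card : ℝ) - (M + 2)) ≤ 0 := by nlinarith
  by_contra hcon
  push Not at hcon
  have : 0 < M * ((I.card : ℝ) - (M + 2)) := mul_pos (by linarith) (by linarith)
  linarith

end Field

end Pool.Agent.Lib.MP_c5838f_co.H61
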