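import Mathlib
import Pool.Agent.Lib.MP_c5838f_co.H61.Points

/-!
# Packings with large chromatic number
-/

namespace Pool.Agent.Lib.MP_c5838f_co.H61

open Finset

/-- Any family of vectors indexed by `ι` can be realised isometrically in `ℝⁿ` if `|ι| ≤ n`. -/
lemma exists_embed {ι P : Type*} [Fintype ι] {n : ℕ} (h : Fintype.card ι ≤ n) (F : P → ι → ℝ) :
    ∃ G : P → EuclideanSpace ℝ (Fin n), ∀ p p', dist (G p) (G p') ^ 2 = ∑ i, (F p i - F p' i) ^ 2 := by
  classical
  obtain ⟨e⟩ : Nonempty (ι ↪ Fin n) := Function.Embedding.nonempty_of_card_le (by simpa using h)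
  refine ⟨fun p => WithLp.toLp 2 (Function.extend e (F p) 0), fun p p' => ?_⟩
  rw [EuclideanSpace.dist_eq, Real.sq_sqrt (Finset.sum_nonneg fun i _ => sq_nonneg _)]
  symm
  apply Fintype.sum_of_injective e e.injective
  · intro i hi
    simp only [Real.dist_eq, sq_abs]
    rw [Function.extend_apply' _ _ _ (by simpa using hi),
      Function.extend_apply' _ _ _ (by simpa using hi)]
    simp
  · intro i
    simp only [Real.dist_eq, sq_abs]
    rw [e.injective.extend_apply, e.injective.extend_apply]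

/-- The main construction, over a field `K` with `2 |K| = M²`. -/
theorem exists_packing {K : Type*} [Field K] [Fintype K] [DecidableEq K] [Algebra (ZMod 2) K]
    (hodd : Odd (Module.finrank (ZMod 2) K)) (M : ℕ) (hM : 2 ≤ M)
    (hK : 2 * Fintype.card K = M ^ 2) (n : ℕ) (hn : 3 * Fintype.card K ≤ n) :
    ∃ T : Finset (EuclideanSpace ℝ (Fin n)), T.Nonempty ∧
      (∀ x ∈ T, ∀ y ∈ T, x ≠ y → 2 ≤ dist x y) ∧
      ∀ (m : ℕ) (col : EuclideanSpace ℝ (Fin n) → Fin m),
        (∀ x ∈ T, ∀ y ∈ T, dist x y = 2 → col x ≠ col y) → M ^ 4 ≤ m * (M + 2) := by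
  classical
  obtain ⟨q, hq⟩ := exists_q K
  have hMR : (2 : ℝ) ≤ M := by exact_mod_cast hM
  have hM0 : (0 : ℝ) < M := by linarith
  set β : ℝ := Real.sqrt M with hβdef
  have hβ : β ^ 2 = M := Real.sq_sqrt hM0.le
  have hKR : 2 * (Fintype.card K : ℝ) = (M : ℝ) ^ 2 := by exact_mod_cast hK
  have hcard : Fintype.card ((K × ZMod 2) ⊕ K) ≤ n := by
    rw [Fintype.card_sum, Fintype.card_prod, ZMod.card]; omega
  obtain ⟨G, hG⟩ := exists_embed hcard (fun p : Par K => fun i => (Real.sqrt 2 / M) * f q β p i)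
  have hdist : ∀ p p', dist (G p) (G p') ^ 2 =
      (2 / (M : ℝ) ^ 2) * (ip q β p p + ip q β p' p' - 2 * ip q β p p') := by
    intro p p'
    rw [hG, ← dsq, Finset.mul_sum]
    refine Finset.sum_congr rfl fun i _ => ?_
    have h2 : (Real.sqrt 2) ^ 2 = 2 := Real.sq_sqrt (by norm_num)
    calc (Real.sqrt 2 / M * f q β p i - Real.sqrt 2 / M * f q β p' i) ^ 2
        = ((Real.sqrt 2) ^ 2 / (M : ℝ) ^ 2) * (f q β p i - f q β p' i) ^ 2 := by ring
      _ = _ := by rw [h2]
  have hdist' : ∀ p p', dist (G p) (G p') ^ 2 =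
      4 + (4 / (M : ℝ) ^ 2) * (M - ip q β p p') := by
    intro p p'
    rw [hdist, ip_self q β M hβ hKR, ip_self q β M hβ hKR]
    field_simp
    ring
  have hsep : ∀ p p', p ≠ p' → 2 ≤ dist (G p) (G p') := by
    intro p p' hne
    have h1 := hdist' p p'
    have h2 : ip q β p p' ≤ M := by
      rcases ip_cases hodd q hq β M hβ hMR hKR hne with h | h
      · exact h.le
      · linarith
    have h3 : 0 ≤ (4 / (M : ℝ) ^ 2) * (M - ip q β p p') :=
      mul_nonneg (by positivity) (by linarith)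
    have h4 : (2 : ℝ) ^ 2 ≤ dist (G p) (G p') ^ 2 := by rw [h1]; linarith
    exact (abs_le_of_sq_le_sq' h4 dist_nonneg).2
  have htouch : ∀ p p', p ≠ p' → dist (G p) (G p') ≠ 2 → ip q β p p' ≤ -M := by
    intro p p' hne hd
    rcases ip_cases hodd q hq β M hβ hMR hKR hne with h | h
    · exfalso
      apply hd
      have h1 := hdist' p p'
      rw [h, sub_self, mul_zero, add_zero] at h1
      have h5 : dist (G p) (G p') ^ 2 = 2 ^ 2 := by rw [h1]; norm_num
      exact (sq_eq_sq₀ dist_nonneg (by norm_num)).mp h5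
    · exact h
  refine ⟨Finset.univ.image G, ?_, ?_, ?_⟩
  · exact ⟨G (0, 0, 0, 0), Finset.mem_image_of_mem _ (Finset.mem_univ _)⟩
  · intro x hx y hy hxy
    obtain ⟨p, _, rfl⟩ := Finset.mem_image.mp hx
    obtain ⟨p', _, rfl⟩ := Finset.mem_image.mp hy
    exact hsep p p' (fun h => hxy (by rw [h]))
  · intro m col hcol
    have hfib : ∀ c ∈ (Finset.univ : Finset (Fin m)),
        ((Finset.univ : Finset (Par K)).filter (fun p => col (G p) = c)).card ≤ M + 2 := by
      intro c _
      have h := indep_card q β M hβ hMR hKR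
        ((Finset.univ : Finset (Par K)).filter (fun p => col (G p) = c)) ?_
      · exact_mod_cast h
      · intro p hp p' hp' hne
        apply htouch p p' hne
        intro hd
        have h1 := (Finset.mem_filter.mp hp).2
        have h2 := (Finset.mem_filter.mp hp').2
        exact hcol (G p) (Finset.mem_image_of_mem _ (Finset.mem_univ _)) (G p')
          (Finset.mem_image_of_mem _ (Finset.mem_univ _)) hd (h1.trans h2.symm)
    have h1 := Finset.card_le_mul_card_image_of_maps_to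
      (s := (Finset.univ : Finset (Par K))) (t := (Finset.univ : Finset (Fin m)))
      (f := fun p => col (G p)) (fun _ _ => Finset.mem_univ _) (M + 2) hfib
    rw [Finset.card_univ, Finset.card_univ, Fintype.card_fin] at h1
    have h2 : Fintype.card (Par K) = M ^ 4 := by
      have : Fintype.card (Par K) = (2 * Fintype.card K) ^ 2 := by
        simp only [Par, Fintype.card_prod, ZMod.card]; ring
      rw [this, hK]; ring
    rw [h2] at h1
    calc M ^ 4 ≤ (M + 2) * m := h1
      _ = m * (M + 2) := by ring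

/-- In dimension `n ≥ 6 · 4^k` there is a packing needing at least `16^(k+1)/(2^(k+1)+2)`
colours. -/
theorem exists_packing_pow (k n : ℕ) (hn : 6 * 4 ^ k ≤ n) :
    ∃ T : Finset (EuclideanSpace ℝ (Fin n)), T.Nonempty ∧
      (∀ x ∈ T, ∀ y ∈ T, x ≠ y → 2 ≤ dist x y) ∧
      ∀ (m : ℕ) (col : EuclideanSpace ℝ (Fin n) → Fin m),
        (∀ x ∈ T, ∀ y ∈ T, dist x y = 2 → col x ≠ col y) →
          16 ^ (k + 1) ≤ m * (2 ^ (k + 1) + 2) := by
  classical
  have : Fact (Nat.Prime 2) := ⟨Nat.prime_two⟩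
  let K := GaloisField 2 (2 * k + 1)
  let _ : Fintype K := Fintype.ofFinite K
  have hfin : Module.finrank (ZMod 2) K = 2 * k + 1 := GaloisField.finrank 2 (by omega)
  have hc : Fintype.card K = 2 ^ (2 * k + 1) := by
    rw [← Nat.card_eq_fintype_card]; exact GaloisField.card 2 (2 * k + 1) (by omega)
  have h4 : (4 : ℕ) ^ k = 2 ^ (2 * k) := by rw [pow_mul]; norm_num
  have hK : 2 * Fintype.card K = (2 ^ (k + 1)) ^ 2 := by
    rw [hc]; ring
  obtain ⟨T, hne, hT, hcol⟩ := exists_packing (K := K) (by rw [hfin]; exact ⟨k, rfl⟩) (2 ^ (k + 1))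
    (by rw [pow_succ]; have : 0 < 2 ^ k := by positivity
        omega) hK n (by rw [hc, pow_succ]; omega)
  refine ⟨T, hne, hT, fun m col h => ?_⟩
  have h5 := hcol m col h
  calc 16 ^ (k + 1) = (2 ^ (k + 1)) ^ 4 := by
        rw [← pow_mul, mul_comm, pow_mul]; norm_num
    _ ≤ _ := h5

/-- The bound in every dimension: `n³ ≤ 864 m²`. -/
theorem exists_packing_cube (n : ℕ) (hn : 1 ≤ n) :
    ∃ T : Finset (EuclideanSpace ℝ (Fin n)), T.Nonempty ∧
      (∀ x ∈ T, ∀ y ∈ T, x ≠ y → 2 ≤ dist x y) ∧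
      ∀ (m : ℕ) (col : EuclideanSpace ℝ (Fin n) → Fin m),
        (∀ x ∈ T, ∀ y ∈ T, dist x y = 2 → col x ≠ col y) → n ^ 3 ≤ 864 * m ^ 2 := by
  rcases Nat.lt_or_ge n 6 with h6 | h6
  · refine ⟨{0}, Finset.singleton_nonempty _, ?_, ?_⟩
    · intro x hx y hy hxy
      rw [Finset.mem_singleton] at hx hy
      exact absurd (hx.trans hy.symm) hxy
    · intro m col _
      have hm : 1 ≤ m := by
        have := (col 0).isLt
        omega
      have h1 : n ^ 3 ≤ 5 ^ 3 := Nat.pow_le_pow_left (by omega) 3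
      have h2 : 1 ≤ m ^ 2 := Nat.one_le_pow _ _ hm
      omega
  · -- choose k with 6 * 4^k ≤ n < 6 * 4^(k+1)
    obtain ⟨k, hk1, hk2⟩ : ∃ k, 6 * 4 ^ k ≤ n ∧ n < 6 * 4 ^ (k + 1) := by
      have h1 : n / 6 ≠ 0 := by omega
      refine ⟨Nat.log 4 (n / 6), ?_, ?_⟩
      · have := Nat.pow_log_le_self 4 h1
        omega
      · have := Nat.lt_pow_succ_log_self (b := 4) (by norm_num) (n / 6)
        omega
    obtain ⟨T, hne, hT, hcol⟩ := exists_packing_pow k n hk1
    refine ⟨T, hne, hT, fun m col h => ?_⟩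
    have h1 := hcol m col h
    set t : ℕ := 2 ^ (k + 1) with ht
    have ht2 : 2 ≤ t := by
      rw [ht, pow_succ]
      have : 0 < 2 ^ k := by positivity
      omega
    have h16 : 16 ^ (k + 1) = t ^ 4 := by
      rw [ht, ← pow_mul, mul_comm, pow_mul]; norm_num
    have h4 : 4 ^ (k + 1) = t ^ 2 := by
      rw [ht, ← pow_mul, mul_comm, pow_mul]; norm_num
    rw [h16] at h1
    rw [h4] at hk2
    -- t^3 ≤ 2 m
    have h2 : t ^ 3 ≤ 2 * m := by
      have h3 : t * t ^ 3 ≤ t * (2 * m) := by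
        calc t * t ^ 3 = t ^ 4 := by ring
          _ ≤ m * (t + 2) := h1
          _ ≤ m * (2 * t) := by apply Nat.mul_le_mul_left; omega
          _ = t * (2 * m) := by ring
      exact Nat.le_of_mul_le_mul_left h3 (by omega)
    calc n ^ 3 ≤ (6 * t ^ 2) ^ 3 := Nat.pow_le_pow_left hk2.le 3
      _ = 216 * (t ^ 3) ^ 2 := by ring
      _ ≤ 216 * (2 * m) ^ 2 := by
          apply Nat.mul_le_mul_left
          exact Nat.pow_le_pow_left h2 2
      _ = 864 * m ^ 2 := by ring

end Pool.Agent.Lib.MP_c5838f_co.H61
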